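import Pool.Agent.Y6.N.Stm
import Pool.Agent.Y494.ND.Pert2

/-!
# NSK-PB: the perturbation of the main modes is small if the other modes are small
-/

open Set Filter Topology

set_option autoImplicit false

namespace Pool.Agent.Y891.NSK

open Pool.Agent.Y5 Pool.Agent.Y5.D Pool.Agent.Y6.N Pool.Agent.Y494.ND

theorem lin_inl {J : Type} {g : J → ℕ} {ℓ ρ E : ℕ → ℝ} {D : Ix J → Ix J → ℝ}
    (hD : Dis g ℓ ρ E D) (n : ℕ) (hf : {j | g j = n}.Finite) (z : Ix J → ℝ) :
    lin D z (Sum.inl n) = ℓ n * z (Sum.inl n) +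
      ∑ j ∈ hf.toFinset, D (Sum.inl n) (Sum.inr j) * z (Sum.inr j) := by
  classical
  unfold lin
  rw [tsum_eq_sum (s := insert (Sum.inl n) (hf.toFinset.map ⟨Sum.inr, Sum.inr_injective⟩))]
  · rw [Finset.sum_insert, hD.diag, Finset.sum_map]
    · rfl
    · rw [Finset.mem_map]
      rintro ⟨j, -, hj⟩
      exact Sum.inr_ne_inl hj
  · intro b hb
    rcases eq_or_ne (D (Sum.inl n) b) 0 with h | h
    · rw [h, zero_mul]
    · exfalso
      apply hb
      have h1 := hD.blk _ _ h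
      rcases b with m | j
      · have h2 : m = n := h1.symm
        subst h2
        exact Finset.mem_insert_self _ _
      · refine Finset.mem_insert_of_mem (Finset.mem_map.2 ⟨j, ?_, rfl⟩)
        rw [Set.Finite.mem_toFinset]
        exact h1.symm

theorem t_PB : S_PB := by
  classical
  intro J g lm L C M ℓ ℓ' ρ E φ B D c hK hs hD hφ
  obtain ⟨S₀, ψ, hSS⟩ := SS_exists M (fun n => φ n / 2) (fun n => half_pos (hφ n)) hs.M_one
  set S : ℕ → ℝ := fun n => max (max (S₀ n) 1) (2 * E n * M n ^ 2 / φ n) with hSdef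
  have hS := hSS S (fun n => (le_max_left _ _).trans (le_max_left _ _))
    (fun n => (le_max_right _ _).trans (le_max_left _ _))
  have hS1 : ∀ n, 1 ≤ S n := fun n => (le_max_right _ _).trans (le_max_left _ _)
  have hSp : ∀ n, 0 < S n := fun n => lt_of_lt_of_le one_pos (hS1 n)
  have hMp : ∀ n, 0 < M n := fun n => lt_of_lt_of_le one_pos (hs.M_one n)
  have hE0 : ∀ n, 0 ≤ E n := fun n => (abs_nonneg _).trans (hD.size (Sum.inl n) (Sum.inl n))
  have hβ : ∀ n, M n * (E n * h0 M S n) ≤ φ n / 2 := by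
    intro n
    have h1 : 2 * E n * M n ^ 2 / φ n ≤ S n := le_max_right _ _
    rw [div_le_iff₀ (hφ n)] at h1
    unfold h0
    rw [mul_div_assoc', mul_div_assoc', div_le_iff₀ (hSp n)]
    nlinarith
  have g0 := grp' hK hs (h := h0 M S) (t := 1) (h0_nonneg hs hS) (fun m => by
    rw [one_mul]; exact a0 hs hS m)
  refine ⟨h0 M S, fun n => div_pos (hMp n) (hSp n), g0.1, ?_⟩
  intro z hz hz1 hzβ n hG
  have hle : ∀ i, |z (Sum.inl i)| ≤ 1 := by
    intro i
    have h1 : z (Sum.inl i) ^ 2 ≤ ∑' a, z a ^ 2 := hz.le_tsum _ (fun a _ => sq_nonneg _)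
    have h2 : z (Sum.inl i) ^ 2 ≤ 1 := h1.trans hz1
    rw [abs_le_one_iff_mul_self_le_one]
    nlinarith
  have hx : Summable fun i : ℕ => z (Sum.inl i) ^ 2 := hz.comp_injective Sum.inl_injective
  have hb := f_bound hK hs hS hle hzβ n hG hx
  have hl := lin_inl hD n (hK.fin n) z
  have hsum : |∑ j ∈ (hK.fin n).toFinset, D (Sum.inl n) (Sum.inr j) * z (Sum.inr j)| ≤
      φ n / 2 := by
    refine (Finset.abs_sum_le_sum_abs _ _).trans ?_
    have h1 : ∀ j ∈ (hK.fin n).toFinset, |D (Sum.inl n) (Sum.inr j) * z (Sum.inr j)| ≤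
        E n * h0 M S n := by
      intro j hj
      rw [Set.Finite.mem_toFinset] at hj
      have hj' : g j = n := hj
      rw [abs_mul]
      have h2 := hzβ j
      rw [hj'] at h2
      exact mul_le_mul (hD.size (Sum.inl n) (Sum.inr j)) h2 (abs_nonneg _) (hE0 n)
    refine (Finset.sum_le_sum h1).trans ?_
    rw [Finset.sum_const, nsmul_eq_mul]
    refine le_trans ?_ (hβ n)
    refine mul_le_mul_of_nonneg_right ?_ (mul_nonneg (hE0 n) (h0_nonneg hs hS n))
    rw [← Set.ncard_eq_toFinset_card _ (hK.fin n)]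
    exact hK.card n
  have hvf : vf3 L C ℓ B (fun m => z (Sum.inl m)) n + ℓ n * z (Sum.inl n) =
      vf3 L C ℓ' B (fun m => z (Sum.inl m)) n + ℓ' n * z (Sum.inl n) := by
    unfold vf3
    ring
  have e : qd c z (Sum.inl n) - lin D z (Sum.inl n) - vf3 L C ℓ' B (fun m => z (Sum.inl m)) n =
      (qd c z (Sum.inl n) - (vf3 L C ℓ B (fun m => z (Sum.inl m)) n + ℓ n * z (Sum.inl n))) +
      -(∑ j ∈ (hK.fin n).toFinset, D (Sum.inl n) (Sum.inr j) * z (Sum.inr j)) := by
    rw [hvf, hl]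
    ring
  rw [e]
  refine (abs_add_le _ _).trans ?_
  rw [abs_neg]
  have h3 : φ 0 / 2 * |z (Sum.inl n)| ≤ φ 0 * |z (Sum.inl n)| :=
    mul_le_mul_of_nonneg_right (by linarith [hφ 0]) (abs_nonneg _)
  have h4 : |qd c z (Sum.inl n) - (vf3 L C ℓ B (fun m => z (Sum.inl m)) n +
      ℓ n * z (Sum.inl n))| ≤ φ 0 / 2 * |z (Sum.inl n)| + φ n / 2 := hb
  linarith

end Pool.Agent.Y891.NSK
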